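import Pool.Agent.Lib_helper19.Classes

/-!
# Presentations with variable clocks

Definitions for the statement of `MP_9649a7_lc.FixedLength`.
-/

namespace Pool.Agent.RL4

open Pool.Agent.H19

/-- The program `c` halts on every input `x` within the clock `(size x + 2) ^ κ (size x)`. -/
def HaltsBy (c : Code) (κ : ℕ → ℕ) : Prop :=
  ∀ x : T, ∃ (y : T) (t : ℕ), Eval c x y t ∧ t ≤ (x.size + 2) ^ κ x.size

/-- The theory presented by `c` with the variable clock: `S^1_2` and all formulas that `c` accepts
within `(size + 2) ^ κ (size)`. For a constant function `κ` this is `theory c κ`. -/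
def theoryBy (c : Code) (κ : ℕ → ℕ) : Set Fm :=
  {φ | φ ∈ S12 ∨ Accepts c (κ φ.enc.size) φ.enc}

/-- The program `c` with the variable clock is a presentation of the theory `T₀`. -/
def Presents (c : Code) (κ : ℕ → ℕ) (T₀ : Set Fm) : Prop :=
  HaltsBy c κ ∧ theoryBy c κ = T₀

/-- For all large `n` no program outputs, from `n` and from advice of size at most `n / 500`, an
`S`-proof of `R n` at cost at most `n ^ (k + α (n / 200))`. -/
def NoProg (S : Set Fm) (R : ℕ → Fm) (α : ℕ → ℕ) (k : ℕ) : Prop :=
  ∀ p : Code, ∃ n₀ : ℕ, ∀ n ≥ n₀, ∀ w : T, 500 * w.size ≤ n →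
    ∀ (y : T) (t : ℕ), Eval p (T.node (T.unary n) w) y t → t ≤ n ^ (k + α (n / 200)) →
      ∀ π : List Step, y = encProof π → ¬ IsProof S π (R n)

/-- For all large `n` no polynomial-time function maps `n` and advice of size at most `n / 500` to
an `S`-proof of `R n`. -/
def NoPolyAdvice (S : Set Fm) (R : ℕ → Fm) : Prop :=
  ∀ f : T → T, PolyTime f → ∃ n₀ : ℕ, ∀ n ≥ n₀, ∀ w : T, 500 * w.size ≤ n →
    ∀ π : List Step, f (T.node (T.unary n) w) = encProof π → ¬ IsProof S π (R n)

/-- No polynomial-time function maps `n` to an `S`-proof of `R n`, for all large `n`. -/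
def NoPoly (S : Set Fm) (R : ℕ → Fm) : Prop :=
  ¬ ∃ f : T → T, PolyTime f ∧ ∃ n₀ : ℕ, ∀ n ≥ n₀, ∃ π : List Step,
    f (T.unary n) = encProof π ∧ IsProof S π (R n)

/-- For all large `n` all `S`-proofs of `R n` are longer than `n ^ (k + α (n / 200))`. -/
def Long (S : Set Fm) (R : ℕ → Fm) (α : ℕ → ℕ) (k : ℕ) : Prop :=
  ∃ n₀ : ℕ, ∀ n ≥ n₀, ∀ π : List Step, IsProof S π (R n) →
    n ^ (k + α (n / 200)) < (encProof π).size

/-- For all universal formulas `μ`, formalisations `P` of proofs, theories `S`, `T₀` of the class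
and nondecreasing functions `α` such that `α n` is computable from `n` in polynomial time (both in
unary) there are numbers `a`, `b` such that for every `k` the theory `T₀` is presented by a program
`c` under the clock `κ n = a + b (k + α n)`, with the property `Q`, where `R n` is the reflection
sentence for `n`, formed with the proof formula `P c (κ n)`. -/
def EveryTheory (Q : Set Fm → (ℕ → Fm) → (ℕ → ℕ) → ℕ → Prop) : Prop :=
  ∀ (μ : Fm) (_ : IsUniversal μ) (P : Code → ℕ → Fm) (_ : IsFormalisation μ P)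
    (S T₀ : Set Fm) (_ : InClassT S) (_ : InClassT T₀)
    (α : ℕ → ℕ) (_ : Monotone α)
    (_ : ∃ g : T → T, PolyTime g ∧ ∀ n, g (T.unary n) = T.unary (α n)),
    ∃ a b : ℕ, ∀ k : ℕ, ∃ c : Code, Presents c (fun n => a + b * (k + α n)) T₀ ∧
      Q S (fun n => rfn (P c (a + b * (k + α n))) μ n) α k

end Pool.Agent.RL4
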