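import Pool.Agent.RL4.Watch
import Pool.Agent.RL4.Defs

/-!
# Arbitrary clocks

The argument of `RL3.Main`, with exponents `k + α n` for a nondecreasing function `α`.
-/

namespace Pool.Agent.RL4

open Pool.Agent.H19 Pool.Agent.H19.T Pool.Agent.RL Pool.Agent.RL2

/-- A program running within the cost cannot write a long proof. -/
theorem Long.noProg {S : Set Fm} {φ : ℕ → Fm} {α : ℕ → ℕ} {k : ℕ} (h : Long S φ α k) :
    NoProg S φ α k := by
  intro p
  obtain ⟨N, hN⟩ := h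
  refine ⟨N, fun n hn w _ y t hy ht π hπ hproof => ?_⟩
  have h1 := hN n hn π hproof
  have h2 := hy.size_le
  rw [← hπ] at h1
  omega

/-- For unbounded `α` no polynomial-time function constructs proofs. -/
theorem NoProg.noPolyAdvice {S : Set Fm} {φ : ℕ → Fm} {α : ℕ → ℕ} {k : ℕ}
    (h : NoProg S φ α k) (hα : Monotone α) (hu : ∀ B, ∃ n, B ≤ α n) : NoPolyAdvice S φ := by
  rintro f ⟨a, j, ha⟩
  obtain ⟨n₀, hn₀⟩ := h a
  obtain ⟨N, hN⟩ := hu (2 * j)
  refine ⟨200 * N + n₀ + 500, fun n hn w hw π hπ => ?_⟩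
  obtain ⟨t, ht, hb⟩ := ha (T.node (T.unary n) w)
  refine hn₀ n (by omega) w hw _ _ ht ?_ π hπ
  have h1 : 2 * j ≤ k + α (n / 200) := by
    have : α N ≤ α (n / 200) := hα (by omega)
    omega
  refine le_trans ?_ (Nat.pow_le_pow_right (by omega) h1)
  have h2 : (T.node (T.unary n) w).size + 2 ≤ n ^ 2 := by
    simp only [T.size, T.size_unary]
    nlinarith
  refine hb.trans ((Nat.pow_le_pow_left h2 j).trans (le_of_eq ?_))
  rw [← pow_mul]

theorem NoPolyAdvice.noPoly {S : Set Fm} {φ : ℕ → Fm} (h : NoPolyAdvice S φ) : NoPoly S φ := by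
  rintro ⟨f, hf, n₁, hn₁⟩
  obtain ⟨n₀, hn₀⟩ := h _ (hf.comp PolyTime.id.left)
  obtain ⟨π, hπ, hpf⟩ := hn₁ (n₀ + n₁ + 500) (by omega)
  exact hn₀ (n₀ + n₁ + 500) (by omega) T.leaf (by simp only [T.size]; omega) π
    (by simpa only [T.left_node] using hπ) hpf

/-- **Main theorem.** -/
theorem mixed (μ₁ : Fm) (hμ₁ : IsUniversal μ₁) (P₁ : Code → ℕ → Fm)
    (hP₁ : IsFormalisation μ₁ P₁) (S₁ T₁ : Set Fm) (hS₁ : InClassT S₁) (hT₁ : InClassT T₁)
    (α₁ : ℕ → ℕ) (hα₁ : Monotone α₁) (hαp₁ : PolyTime (fun x : T => T.unary (α₁ x.len)))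
    (μ₂ : Fm) (hμ₂ : IsUniversal μ₂) (P₂ : Code → ℕ → Fm)
    (hP₂ : IsFormalisation μ₂ P₂) (S₂ T₂ : Set Fm) (hS₂ : InClassT S₂) (hT₂ : InClassT T₂)
    (α₂ : ℕ → ℕ) (hα₂ : Monotone α₂) (hαp₂ : PolyTime (fun x : T => T.unary (α₂ x.len))) :
    (∃ a b : ℕ, ∀ k : ℕ, ∃ c : Code, Presents c (fun n => a + b * (k + α₁ n)) T₁ ∧
      NoPoly S₁ (fun n => rfn (P₁ c (a + b * (k + α₁ n))) μ₁ n) ∧
      NoProg S₁ (fun n => rfn (P₁ c (a + b * (k + α₁ n))) μ₁ n) α₁ k) ∨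
    (∃ a b : ℕ, ∀ k : ℕ, ∃ c : Code, Presents c (fun n => a + b * (k + α₂ n)) T₂ ∧
      Long S₂ (fun n => rfn (P₂ c (a + b * (k + α₂ n))) μ₂ n) α₂ k) := by
  obtain ⟨K₁, hkey₁⟩ := RL3.key hμ₁ hP₁ hS₁
  obtain ⟨K₂, hkey₂⟩ := RL3.key hμ₂ hP₂ hS₂
  obtain ⟨fP₁, hfP₁, hfPc₁⟩ := hP₁.poly
  obtain ⟨fP₂, hfP₂, hfPc₂⟩ := hP₂.poly
  obtain ⟨hc₁, f₁, hf₁, hT₁f⟩ := hT₁
  obtain ⟨hc₂, f₂, hf₂, hT₂f⟩ := hT₂
  have hSdec₁ := DecTh.of_inClassT hS₁
  have hSdec₂ := DecTh.of_inClassT hS₂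
  obtain ⟨m₁, hm₁⟩ : ∃ m₁ : ℕ, m₁ = 3 * (K₁ + K₂ + 30000) := ⟨_, rfl⟩
  -- the bound of the first function, if it is bounded
  obtain ⟨Kb, hKb⟩ : ∃ Kb : ℕ, (∃ B, ∀ n, α₁ n ≤ B) →
      (∀ n, α₁ n ≤ Kb) ∧ ∃ N, ∀ n ≥ N, α₁ n = Kb := by
    by_cases hbd : ∃ B, ∀ n, α₁ n ≤ B
    · classical
      refine ⟨Nat.find hbd, fun _ => ⟨Nat.find_spec hbd, ?_⟩⟩
      by_contra hcon
      push Not at hcon
      have h0 : Nat.find hbd ≠ 0 := by
        intro h0
        obtain ⟨m, _, hne⟩ := hcon 0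
        have := Nat.find_spec hbd m
        omega
      refine Nat.find_min hbd (m := Nat.find hbd - 1) (by omega) fun n => ?_
      obtain ⟨m, hm, hne⟩ := hcon n
      have g1 := Nat.find_spec hbd m
      have g2 := hα₁ hm
      omega
    · exact ⟨0, fun h => absurd h hbd⟩
  -- the theory which reports failures
  obtain ⟨R, hprog⟩ := progV_cost (μ := μ₁) hSdec₁ hfP₁ hf₂ hα₂ hαp₂
  have haccP : ∀ (D x : T) (κ : ℕ), kapV R.β D (α₂ x.size) ≤ κ → (Accepts (progV R D) κ x ↔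
      GG S₁ μ₁ fP₁ f₂ (T.node D (T.node x (WWV α₂ D x))) ≠ T.leaf) := by
    intro D x κ hκ
    obtain ⟨t, ht, hb⟩ := hprog D x
    exact accepts_iff ht (hb.trans (Nat.pow_le_pow_right (by omega) hκ))
  -- the uniform family
  obtain ⟨W, hW⟩ := progW_cost hα₁ hαp₁
  obtain ⟨cG, κG, hG⟩ := recursion (EV_polyTime (μ₁ := μ₁) (μ₂ := μ₂) (R := R) (W := W)
    (m₁ := m₁) (Kb := Kb) hSdec₁ hSdec₂ hfP₁ hfP₂ hf₁ hαp₁ hαp₂)
  obtain ⟨g, hg⟩ : ∃ g, g = T.node cG.enc (T.unary κG) := ⟨_, rfl⟩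
  obtain ⟨ck, hck⟩ : ∃ ck : ℕ → Code, ∀ k, ck k = progW W cG k := ⟨_, fun _ => rfl⟩
  obtain ⟨κf, hκf⟩ : ∃ κf : ℕ → ℕ → ℕ, ∀ k a, κf k a = W.C₀ * (κG + 1) * (k + a + 3) :=
    ⟨_, fun _ _ => rfl⟩
  have hκm : ∀ k, ∀ {a b : ℕ}, a ≤ b → κf k a ≤ κf k b := by
    intro k a b hab
    rw [hκf, hκf]
    exact Nat.mul_le_mul_left _ (by omega)
  have hQk : ∀ k a, QW W g k a = T.node (ck k).enc (T.unary (κf k a)) := by
    intro k a
    rw [QW, hg, T.left_node, T.right_node, T.len_unary, progWE_eq, hck, hκf]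
  obtain ⟨val, hval⟩ : ∃ val : ℕ → T → T, ∀ k x, val k x = EV S₁ S₂ μ₁ μ₂ fP₁ fP₂ f₁ R W α₁ α₂
      m₁ Kb (T.node (T.node (T.unary k) (T.node x (T.unary (nOf (unfalsum x) ^
        (k + α₁ (unfalsum x).right.left.len))))) g) := ⟨_, fun _ _ => rfl⟩
  have hcost : ∀ (k : ℕ) (x : T), ∃ t : ℕ, Eval (ck k) x (val k x) t ∧
      t ≤ (x.size + 2) ^ (κf k (α₁ x.size)) := by
    intro k x
    rw [hck, hκf, hval, hg]
    exact hW cG κG (fun y => EV S₁ S₂ μ₁ μ₂ fP₁ fP₂ f₁ R W α₁ α₂ m₁ Kb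
      (T.node y (T.node cG.enc (T.unary κG)))) hG k x
  have hacc : ∀ (k : ℕ) (x : T) (κ : ℕ), κf k (α₁ x.size) ≤ κ →
      (Accepts (ck k) κ x ↔ val k x ≠ T.leaf) := by
    intro k x κ hκ
    obtain ⟨t, ht, hb⟩ := hcost k x
    exact accepts_iff ht (hb.trans (Nat.pow_le_pow_right (by omega) hκ))
  have hPq : ∀ k a, fP₁ (QW W g k a) = (P₁ (ck k) (κf k a)).enc := by
    intro k a
    rw [hQk]
    exact hfPc₁ _ _
  -- there is no success
  have hno : ∀ (k : ℕ) (v : T),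
      ¬ ((α₁ (falsum v).enc.size ≤ Kb ∧ SuccV S₂ μ₂ fP₂ R α₂ m₁ v (QW W g k Kb)) ∨
        SuccF S₁ μ₁ fP₁ m₁ v (T.unary (nOf v ^ (k + α₁ v.right.left.len)))
          (QW W g k (α₁ (nOf v)))) := by
    intro k v hv
    have hmem : ∀ κ : ℕ, κf k (α₁ (falsum v).enc.size) ≤ κ → falsum v ∈ theory (ck k) κ := by
      intro κ hκ
      refine Or.inr ((hacc k _ κ hκ).2 ?_)
      have : val k (falsum v).enc = T.node T.leaf T.leaf := by
        rw [hval]
        simp only [EV, T.left_node, T.right_node]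
        rw [if_pos]
        refine ⟨by rw [unfalsum_enc], ?_⟩
        rw [unfalsum_enc, T.len_unary]
        exact hv
      rw [this]; simp
    rcases hv with ⟨hvb, hv⟩ | hv
    · obtain ⟨hv1, hv2, hv3, hv4⟩ := hv
      obtain ⟨D, hD⟩ : ∃ D, D = T.node v.left (QW W g k Kb) := ⟨_, rfl⟩
      rw [← hD, progVE_eq, hfPc₂, decFm_enc] at hv4
      obtain ⟨m, hm⟩ : ∃ m, m = v.right.left.len := ⟨_, rfl⟩
      rw [← hm] at hv1 hv2 hv3 hv4
      obtain ⟨v₀, hv₀⟩ : ∃ v₀, v₀ = T.node (T.unary (m / 200)) (T.unary (m % 200)) := ⟨_, rfl⟩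
      have hv₀s : (falsum v₀).enc.size ≤ m := by
        have := falsum_size v₀
        have h2 : v₀.size ≤ 2 * (m / 200) + 401 := by
          rw [hv₀]; simp only [T.size, T.size_unary]; omega
        omega
      have hmOf : mOf v₀ = m := by
        rw [hv₀]; simp only [mOf, T.left_node, T.right_node, T.len_unary]; omega
      have hv₀l : v₀.left.len = m / 200 := by
        rw [hv₀, T.left_node, T.len_unary]
      -- the theory which reports failures does not report a failure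
      have h1 : ¬ Fails S₁ μ₁ fP₁ D v₀ (WWV α₂ D (falsum v₀).enc) := by
        intro hF
        refine hkey₂ (progV R D) (kapV R.β D (α₂ m)) v₀ m ?_ ?_ ⟨_, hv4⟩
        · refine Or.inr ((haccP _ _ _ (kapV_mono _ _ (hα₂ hv₀s))).2 ?_)
          have : GG S₁ μ₁ fP₁ f₂ (T.node D (T.node (falsum v₀).enc
              (WWV α₂ D (falsum v₀).enc))) = T.node T.leaf T.leaf := by
            simp only [GG, T.left_node, T.right_node]
            rw [if_pos]
            exact ⟨by rw [unfalsum_enc], by rw [unfalsum_enc]; exact hF⟩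
          rw [this]; simp
        · rw [hv₀]
          simp only [T.size, T.size_unary]
          omega
      have h2 : IsProof S₁ (decProof (simul (T.node D.left.left.left
          (WWV α₂ D (falsum v₀).enc))))
          (rfn (P₁ (ck k) (κf k Kb)) μ₁ (m ^ (v.left.right.left.len + α₂ (m / 200)))) := by
        by_contra hcon
        refine h1 ⟨?_, ?_⟩
        · rw [hmOf, hD, T.left_node]; exact hv2
        · rw [hD, T.right_node, hPq, decFm_enc, ← hD]
          have : (WWV α₂ D (falsum v₀).enc).left.len =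
              m ^ (v.left.right.left.len + α₂ (m / 200)) := by
            simp only [WWV, T.left_node, T.len_unary]
            rw [unfalsum_enc, hmOf, hv₀l, hD, T.left_node]
          rw [this]
          exact hcon
      exact hkey₁ (ck k) (κf k Kb) v _ (hmem _ (hκm k hvb)) (by omega) ⟨_, h2⟩
    · obtain ⟨hv1, hv2, hv3⟩ := hv
      rw [hPq, decFm_enc] at hv3
      have hnv : nOf v = 200 * v.right.left.len + v.right.right.len := rfl
      have hs : (falsum v).enc.size ≤ nOf v := by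
        have := falsum_size v
        rw [hnv]; omega
      exact hkey₁ (ck k) (κf k (α₁ (nOf v))) v (nOf v) (hmem _ (hκm k (hα₁ hs)))
        (by rw [hnv]; omega) ⟨_, hv3⟩
  have hpres : ∀ k, Presents (ck k) (fun n => κf k (α₁ n)) T₁ := by
    intro k
    refine ⟨fun x => ⟨_, hcost k x⟩, ?_⟩
    ext φ
    rw [hT₁f]
    show (φ ∈ S12 ∨ Accepts (ck k) (κf k (α₁ φ.enc.size)) φ.enc) ↔ _
    rw [hacc k _ _ le_rfl]
    have : val k φ.enc = f₁ φ.enc := by
      rw [hval]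
      simp only [EV, T.left_node, T.right_node]
      rw [if_neg]
      rintro ⟨h0, h⟩
      rw [T.len_unary] at h
      refine hno k (unfalsum φ.enc) ?_
      rw [h0]
      exact h
    rw [this]
  -- programs with advice
  have hfix : ∀ k : ℕ, NoProg S₁ (fun n => rfn (P₁ (ck k) (κf k (α₁ n))) μ₁ n) α₁ k := by
    intro k a
    refine ⟨600 * (m₁ + a.enc.size + 1000), fun n hn w hw y t hy ht π hπ hproof => ?_⟩
    obtain ⟨v, hv⟩ : ∃ v, v = T.node (T.node a.enc w) (T.node (T.unary (n / 200))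
      (T.unary (n % 200))) := ⟨_, rfl⟩
    have hnv : nOf v = n := by
      rw [hv]; simp only [nOf, T.right_node, T.left_node, T.len_unary]; omega
    have hmv : v.right.left.len = n / 200 := by
      rw [hv]; simp only [T.right_node, T.left_node, T.len_unary]
    refine hno k v (Or.inr ⟨?_, ?_, ?_⟩)
    · rw [hmv]; omega
    · rw [hmv, hv]
      simp only [T.size, T.size_unary]
      omega
    · rw [hnv, hmv]
      have h1 : outW v (T.unary (n ^ (k + α₁ (n / 200)))) = y := by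
        simp only [outW, hnv]
        rw [hv]
        simp only [T.left_node, T.right_node]
        exact simul_spec hy ht
      rw [h1, hπ, decProof_enc, hPq, decFm_enc]
      exact hproof
  by_cases hf : ∃ k₀ : ℕ, ∃ f : T → T, PolyTime f ∧ ∃ n₀ : ℕ, ∀ n ≥ n₀, ∃ π : List Step,
      f (T.unary n) = encProof π ∧ IsProof S₁ π (rfn (P₁ (ck k₀) (κf k₀ (α₁ n))) μ₁ n)
  swap
  · refine Or.inl ⟨3 * (W.C₀ * (κG + 1)), W.C₀ * (κG + 1), fun k => ?_⟩
    have he : ∀ n, 3 * (W.C₀ * (κG + 1)) + W.C₀ * (κG + 1) * (k + α₁ n) = κf k (α₁ n) := by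
      intro n; rw [hκf]; ring
    simp only [he]
    exact ⟨ck k, hpres k, fun h => hf ⟨k, h⟩, hfix k⟩
  right
  obtain ⟨k₀, f, hfp, n₁, hn₁⟩ := hf
  -- the first function is bounded
  have hbd : ∃ B, ∀ n, α₁ n ≤ B := by
    by_contra hcon
    push Not at hcon
    exact ((hfix k₀).noPolyAdvice hα₁ (fun B => (hcon B).imp fun n h => h.le)).noPoly
      ⟨f, hfp, n₁, hn₁⟩
  obtain ⟨hKb1, N₁, hN₁⟩ := hKb hbd
  obtain ⟨a, j, ha⟩ := hfp
  obtain ⟨n₀, hn₀'⟩ : ∃ n₀, n₀ = n₁ + N₁ := ⟨_, rfl⟩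
  have hn₀ : ∀ n ≥ n₀, ∃ π : List Step,
      f (T.unary n) = encProof π ∧ IsProof S₁ π (rfn (P₁ (ck k₀) (κf k₀ Kb)) μ₁ n) := by
    intro n hn
    have := hn₁ n (by omega)
    rwa [hN₁ n (by omega)] at this
  obtain ⟨q, hq⟩ : ∃ q, q = QW W g k₀ Kb := ⟨_, rfl⟩
  have hPq₀ : fP₁ q = (P₁ (ck k₀) (κf k₀ Kb)).enc := by rw [hq]; exact hPq k₀ Kb
  refine ⟨R.β * (5 * (j + 3) + (a.enc.size + 2 * j + 2 * n₀ + q.size + 13)),
    R.β * (j + 5), fun k => ?_⟩
  obtain ⟨D₀, hD₀⟩ : ∃ D₀ : T, D₀ = T.node (T.node a.enc (T.unary j))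
    (T.node (T.unary (k + 2)) (T.unary (n₀ + 1))) := ⟨_, rfl⟩
  obtain ⟨D, hD⟩ : ∃ D, D = T.node D₀ q := ⟨_, rfl⟩
  have hKD : D₀.right.left.len = k + 2 := by
    rw [hD₀]; simp only [T.left_node, T.right_node, T.len_unary]
  have he : ∀ n, R.β * (5 * (j + 3) + (a.enc.size + 2 * j + 2 * n₀ + q.size + 13)) +
      R.β * (j + 5) * (k + α₂ n) = kapV R.β D (α₂ n) := by
    intro n
    have h3 : D.size = a.enc.size + 2 * j + 2 * n₀ + q.size + 2 * k + 13 := by
      rw [hD, hD₀]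
      simp only [T.size, T.size_unary]; omega
    have h4 : D.left.right.left.len = k + 2 := by
      rw [hD, T.left_node, hKD]
    have h5 : D.left.left.right.len = j := by
      rw [hD, hD₀]; simp only [T.left_node, T.right_node, T.len_unary]
    rw [kapV, h3, h4, h5]
    ring
  simp only [he]
  refine ⟨progV R D, ⟨fun x => ⟨_, hprog D x⟩, ?_⟩, ?_⟩
  · -- the theory
    ext φ
    rw [hT₂f]
    show (φ ∈ S12 ∨ Accepts _ _ φ.enc) ↔ _
    rw [haccP _ _ _ le_rfl]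
    have : GG S₁ μ₁ fP₁ f₂ (T.node D (T.node φ.enc (WWV α₂ D φ.enc))) = f₂ φ.enc := by
      simp only [GG, T.left_node, T.right_node]
      rw [if_neg]
      rintro ⟨_, h1, h2⟩
      apply h2
      obtain ⟨m, hm⟩ : ∃ m, m = mOf (unfalsum φ.enc) := ⟨_, rfl⟩
      obtain ⟨b, hb⟩ : ∃ b, b = α₂ (unfalsum φ.enc).left.len := ⟨_, rfl⟩
      rw [← hm] at h1
      have e1 : D.left.left.left = a.enc := by rw [hD, hD₀]; simp only [T.left_node]
      have e2 : D.right = q := by rw [hD]; rfl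
      have e3 : WWV α₂ D φ.enc = T.node (T.unary (m ^ (k + 2 + b)))
          (T.unary ((2 * m ^ (k + 2 + b) + 3) ^ j)) := by
        rw [WWV, ← hm, ← hb, hD, hD₀]
        simp only [T.left_node, T.right_node, T.len_unary]
      have e4 : n₀ + 1 ≤ m := by
        rw [hD, hD₀] at h1
        simpa only [T.left_node, T.right_node, T.len_unary] using h1
      have e5 : n₀ ≤ m ^ (k + 2 + b) := by
        calc n₀ ≤ m := by omega
          _ = m ^ 1 := (pow_one m).symm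
          _ ≤ m ^ (k + 2 + b) := Nat.pow_le_pow_right (by omega) (by omega)
      obtain ⟨π, hπ, hpf⟩ := hn₀ _ e5
      obtain ⟨t, ht, hb⟩ := ha (T.unary (m ^ (k + 2 + b)))
      rw [T.size_unary] at hb
      have e6 := simul_spec ht (b := (2 * m ^ (k + 2 + b) + 3) ^ j) (by
        refine hb.trans (le_of_eq ?_); congr 1)
      rw [e1, e2, e3, hPq₀, decFm_enc, e6, hπ, decProof_enc, T.left_node, T.len_unary]
      exact hpf
    rw [this]
  · -- the proofs are long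
    refine ⟨100 * D₀.size + m₁ + 1000, fun m hm π hπ => ?_⟩
    by_contra hcon
    obtain ⟨b, hb⟩ : ∃ b, b = α₂ (m / 200) := ⟨_, rfl⟩
    rw [← hb] at hcon
    have hcon' : (encProof π).size ≤ m ^ (k + b) := by omega
    refine hno k₀ (T.node D₀ (T.node (T.unary m) (encProof π)))
      (Or.inl ⟨hKb1 _, ?_, ?_, ?_, ?_⟩)
    · simp only [T.left_node, T.right_node, T.len_unary]; omega
    · have h1 : n₀ + 1 ≤ D₀.size := by
        rw [hD₀]; simp only [T.size, T.size_unary]; omega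
      have h2 : D₀.right.right.len = n₀ + 1 := by
        rw [hD₀]; simp only [T.right_node, T.len_unary]
      simp only [T.left_node, T.right_node, T.len_unary]
      rw [h2]
      omega
    · simp only [T.left_node, T.right_node, T.len_unary, T.size, T.size_unary]
      rw [hKD, ← hb]
      have h3 : 1 ≤ m ^ (k + b) := Nat.one_le_pow _ _ (by omega)
      have h4 : m ^ (k + 2 + b) = m ^ (k + b) * (m * m) := by ring
      have h5 : 100 * D₀.size + m₁ + 700 + 200 * m ≤ m * m := by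
        have : (100 * D₀.size + m₁ + 1000) * m ≤ m * m := Nat.mul_le_mul_right _ hm
        have h6 : 1 ≤ m := by omega
        nlinarith [Nat.mul_le_mul_left (100 * D₀.size + m₁ + 700) h6]
      rw [h4]
      have h7 : m ^ (k + b) * (100 * D₀.size + m₁ + 700 + 200 * m) ≤ m ^ (k + b) * (m * m) :=
        Nat.mul_le_mul_left _ h5
      have h8 : (100 * D₀.size + m₁ + 600 + 200 * m) ≤
          m ^ (k + b) * (100 * D₀.size + m₁ + 600 + 200 * m) :=
        Nat.le_mul_of_pos_left _ (by omega)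
      have h9 : m ^ (k + b) * (100 * D₀.size + m₁ + 700 + 200 * m) =
          m ^ (k + b) * (100 * D₀.size + m₁ + 600 + 200 * m) + 100 * m ^ (k + b) := by ring
      omega
    · simp only [T.left_node, T.right_node, T.len_unary]
      rw [← hq, ← hD, progVE_eq, hfPc₂, decFm_enc, decProof_enc]
      exact hπ

theorem unary_polyTime {α : ℕ → ℕ}
    (h : ∃ g : T → T, PolyTime g ∧ ∀ n, g (T.unary n) = T.unary (α n)) :
    PolyTime (fun x : T => T.unary (α x.len)) := by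
  obtain ⟨g, hg, hgα⟩ := h
  exact (hg.comp PolyTime.lenU).congr fun x => hgα _

/-- **Final form.** -/
theorem global :
    EveryTheory (fun S R α k => NoProg S R α k ∧ ((∀ B, ∃ n, B ≤ α n) → NoPolyAdvice S R)) ∧
    (EveryTheory (fun S R α k => NoPoly S R ∧ NoProg S R α k) ∨
      EveryTheory (fun S R α k => Long S R α k)) := by
  constructor
  · intro μ hμ P hP S T₀ hS hT₀ α hα hαg
    have hαp := unary_polyTime hαg
    rcases mixed μ hμ P hP S T₀ hS hT₀ α hα hαp μ hμ P hP S T₀ hS hT₀ α hα hαp with h | h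
    · obtain ⟨a, b, h⟩ := h
      refine ⟨a, b, fun k => ?_⟩
      obtain ⟨c, h1, _, h3⟩ := h k
      exact ⟨c, h1, h3, h3.noPolyAdvice hα⟩
    · obtain ⟨a, b, h⟩ := h
      refine ⟨a, b, fun k => ?_⟩
      obtain ⟨c, h1, h3⟩ := h k
      exact ⟨c, h1, h3.noProg, h3.noProg.noPolyAdvice hα⟩
  · refine or_iff_not_imp_right.2 fun hB μ₁ hμ₁ P₁ hP₁ S₁ T₁ hS₁ hT₁ α₁ hα₁ hαp₁ => ?_
    by_contra hA
    refine hB fun μ₂ hμ₂ P₂ hP₂ S₂ T₂ hS₂ hT₂ α₂ hα₂ hαp₂ => ?_
    exact (mixed μ₁ hμ₁ P₁ hP₁ S₁ T₁ hS₁ hT₁ α₁ hα₁ (unary_polyTime hαp₁)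
      μ₂ hμ₂ P₂ hP₂ S₂ T₂ hS₂ hT₂ α₂ hα₂ (unary_polyTime hαp₂)).resolve_left hA

end Pool.Agent.RL4
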