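import Pool.Agent.RL2.Main

/-!
# Powers with an exponent given in the input, and division

The program `node (unary n) (unary e) ↦ unary (n ^ e)`, with a bound for its cost that is a power
of the size with an exponent linear in `e`.
-/

namespace Pool.Agent.RL4

open Pool.Agent.H19 Pool.Agent.H19.T Pool.Agent.RL

/-! ### Powers -/

/-- One step of the loop for powers; the state is `node counter (node n power)`. -/
def pStep (y : T) : T :=
  T.node y.left.right (T.node y.right.left (mulU y.right.left y.right.right))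

/-- The first state. -/
def pInit (z : T) : T := T.node z.right (T.node z.left (T.unary 1))

theorem pStep_iterate (n e : ℕ) (i : ℕ) (hi : i ≤ e) :
    pStep^[i] (T.node (T.unary e) (T.node (T.unary n) (T.unary 1))) =
      T.node (T.unary (e - i)) (T.node (T.unary n) (T.unary (n ^ i))) := by
  induction i with
  | zero => rfl
  | succ i ih =>
    rw [Function.iterate_succ_apply', ih (by omega)]
    obtain ⟨d, hd⟩ : ∃ d, e - i = d + 1 := ⟨e - i - 1, by omega⟩
    have h2 : e - (i + 1) = d := by omega
    rw [hd, h2]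
    simp only [pStep, T.unary, T.left_node, T.right_node, mulU_unary]
    congr 3
    ring

/-- Bound for the size of the states. -/
theorem pState_size {s E n e i : ℕ} (hs : 3 ≤ s) (hn : 2 * n + 1 ≤ s ^ E) (hi : i ≤ e) :
    (T.node (T.unary (e - i)) (T.node (T.unary n) (T.unary (n ^ i)))).size ≤
      s ^ ((E + 1) * (e + 1) + 2) := by
  have h1 : 2 * n ^ i + 1 ≤ s ^ (E * e + 1) := by
    have g1 : n ^ i ≤ (s ^ E) ^ i := Nat.pow_le_pow_left (by omega) i
    rw [← pow_mul] at g1
    have g2 : s ^ (E * i) ≤ s ^ (E * e) :=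
      Nat.pow_le_pow_right (by omega) (Nat.mul_le_mul_left _ hi)
    have g3 : 1 ≤ s ^ (E * e) := Nat.one_le_pow _ _ (by omega)
    rw [pow_succ]
    have : s ^ (E * e) * 3 ≤ s ^ (E * e) * s := Nat.mul_le_mul_left _ hs
    omega
  have h2 : 2 * (e - i) + 1 ≤ s ^ e := by
    have g1 : ∀ e : ℕ, 2 * e + 1 ≤ 3 ^ e := by
      intro e
      induction e with
      | zero => simp
      | succ e ih => rw [pow_succ]; omega
    have g2 : 3 ^ e ≤ s ^ e := Nat.pow_le_pow_left hs e
    have := g1 e
    omega
  have h3 := add_le_pow (a := e) (b := E) hs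
  have h4 := add_le_pow (a := e + E + 1) (b := E * e + 1) hs
  have h5 : e + E + 1 + (E * e + 1) + 1 = (E + 1) * (e + 1) + 2 := by ring
  rw [h5] at h4
  simp only [T.size, T.size_unary]
  omega

theorem pStep_polyTime : PolyTime pStep := by
  have i := PolyTime.id
  exact i.left.right.node (i.right.left.node (PolyTime.mulU i.right.left i.right.right))

theorem pInit_polyTime : PolyTime pInit := by
  have i := PolyTime.id
  exact i.right.node (i.left.node (PolyTime.const _))

/-- The program for powers. -/
theorem powV : ∃ (cP : Code) (A : ℕ), ∀ (s E n e : ℕ), 3 ≤ s → 2 * n + 1 ≤ s ^ E →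
    Cost cP (T.node (T.unary n) (T.unary e)) (T.unary (n ^ e)) s (A * ((E + 1) * (e + 3))) := by
  obtain ⟨cI, kI, hI⟩ := pInit_polyTime
  obtain ⟨cS, kS, hS⟩ := pStep_polyTime
  refine ⟨Code.comp Code.snd (Code.comp (Code.loop cS) cI), 3 * kI + 4 * kS + 20, ?_⟩
  intro s E n e hs hn
  obtain ⟨X, hX⟩ : ∃ X, X = (E + 1) * (e + 3) := ⟨_, rfl⟩
  obtain ⟨M, hM⟩ : ∃ M, M = (E + 1) * (e + 1) + 2 := ⟨_, rfl⟩
  have hX3 : 3 ≤ X := by rw [hX]; nlinarith [Nat.zero_le E, Nat.zero_le e, Nat.zero_le (E * e)]
  have hXe : e + 3 ≤ X := by rw [hX]; nlinarith [Nat.zero_le (E * e)]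
  have hXM : M ≤ X + 2 := by
    rw [hX, hM]; nlinarith [Nat.zero_le (E * e), Nat.zero_le E]
  -- the first state
  have z0 : (T.node (T.unary n) (T.unary e)).size ≤ s ^ M := by
    have := pState_size (i := 0) hs hn (Nat.zero_le e)
    rw [← hM] at this
    simp only [T.size, T.size_unary, Nat.sub_zero, pow_zero] at this ⊢
    omega
  have c1 : Cost cI (T.node (T.unary n) (T.unary e))
      (T.node (T.unary e) (T.node (T.unary n) (T.unary 1))) s ((M + 1) * kI) := by
    have := Cost.poly hI hs z0
    simpa only [pInit, T.left_node, T.right_node] using this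
  -- the loop
  obtain ⟨B, hB⟩ : ∃ B, B = s ^ ((M + 1) * (kS + 1)) := ⟨_, rfl⟩
  have hsz : ∀ i, i ≤ e → (pStep^[i] (T.node (T.unary e)
      (T.node (T.unary n) (T.unary 1)))).size ≤ s ^ M := by
    intro i hi
    rw [pStep_iterate n e i hi, hM]
    exact pState_size hs hn hi
  have hMB : s ^ M ≤ B := by
    rw [hB]
    exact Nat.pow_le_pow_right (by omega) (by nlinarith [Nat.zero_le (M * kS)])
  obtain ⟨t2, ht2, hb2⟩ := Eval.loop_of_iterate (c := cS) (f := pStep) (B := B) e
    (T.node (T.unary e) (T.node (T.unary n) (T.unary 1)))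
    (fun i hi => by
      rw [pStep_iterate n e i hi.le, T.left_node]
      obtain ⟨d, hd⟩ : ∃ d, e - i = d + 1 := ⟨e - i - 1, by omega⟩
      rw [hd]; simp [T.unary])
    (by
      rw [pStep_iterate n e e le_rfl, T.left_node, Nat.sub_self]; rfl)
    (fun i hi => by
      obtain ⟨t, ht, hb⟩ := Cost.poly hS hs (hsz i hi.le)
      refine ⟨t, ht, hb.trans ?_⟩
      rw [hB]
      exact Nat.pow_le_pow_right (by omega) (Nat.mul_le_mul_left _ (by omega)))
    (fun i hi => (hsz i hi).trans hMB)
  rw [pStep_iterate n e e le_rfl, T.right_node] at ht2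
  have c2 : Cost (Code.loop cS) (T.node (T.unary e) (T.node (T.unary n) (T.unary 1)))
      (T.node (T.unary n) (T.unary (n ^ e))) s (e + 1 + ((M + 1) * (kS + 1) + 1)) := by
    refine ⟨t2, ht2, hb2.trans ?_⟩
    rw [pow_add]
    refine Nat.mul_le_mul ?_ ?_
    · calc e + 1 ≤ 2 ^ (e + 1) := (Nat.lt_two_pow_self).le
        _ ≤ s ^ (e + 1) := Nat.pow_le_pow_left (by omega) _
    · have : 1 ≤ B := by rw [hB]; exact Nat.one_le_pow _ _ (by omega)
      rw [pow_succ, ← hB]
      nlinarith
  have c3 : Cost Code.snd (T.node (T.unary n) (T.unary (n ^ e))) (T.unary (n ^ e)) s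
      (e + 1 + ((M + 1) * (kS + 1) + 1)) := by
    refine ⟨_, Eval.snd _, ?_⟩
    exact c2.size
  have c4 := Cost.comp hs (Cost.comp hs c1 c2) c3
  refine c4.mono hs ?_
  rw [← hX]
  have h1 : (M + 1) * kI ≤ (2 * X) * kI := Nat.mul_le_mul_right _ (by omega)
  have h2 : (M + 1) * (kS + 1) ≤ (2 * X) * (kS + 1) := Nat.mul_le_mul_right _ (by omega)
  have h3 : (3 * kI + 4 * kS + 20) * X = (2 * X) * kI + X * kI + 2 * ((2 * X) * (kS + 1)) +
      16 * X := by ring
  have h4 := Nat.zero_le (X * kI)
  omega

/-! ### Division -/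

theorem PolyNat.div {f : T → ℕ} (hf : PolyNat f) (d : ℕ) (hd : 0 < d) :
    PolyNat (fun x => f x / d) := by
  have i := PolyTime.id
  let g : T → T := fun s => if s.right = T.unary (d - 1) then T.node (T.node T.leaf s.left) T.leaf
    else T.node s.left (T.node T.leaf s.right)
  have hg : PolyTime g := PolyTime.ifEq i.right (PolyTime.const _)
    ((PolyTime.leaf.node i.left).node PolyTime.leaf) (i.left.node (PolyTime.leaf.node i.right))
  have hinj : ∀ a b : ℕ, T.unary a = T.unary b ↔ a = b := by
    intro a b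
    refine ⟨fun h => ?_, fun h => by rw [h]⟩
    have := congrArg T.len h
    simpa using this
  have hit : ∀ n, g^[n] (T.node T.leaf T.leaf) = T.node (T.unary (n / d)) (T.unary (n % d)) := by
    intro n
    induction n with
    | zero => simp [T.unary]
    | succ n ih =>
      rw [Function.iterate_succ_apply', ih]
      have hlt := Nat.mod_lt n hd
      have hdm := Nat.div_add_mod n d
      by_cases h : n % d = d - 1
      · have h1 : n + 1 = d * (n / d + 1) := by
          rw [mul_add, mul_one]; omega
        have h2 : (n + 1) / d = n / d + 1 := by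
          rw [h1]; exact Nat.mul_div_cancel_left _ hd
        have h3 : (n + 1) % d = 0 := by
          rw [h1]; exact Nat.mul_mod_right _ _
        simp only [g, T.right_node, T.left_node, hinj]
        rw [if_pos h, h2, h3]
        rfl
      · have h1 : n + 1 = (n % d + 1) + d * (n / d) := by omega
        have h2 : (n + 1) / d = n / d := by
          rw [h1, Nat.add_mul_div_left _ _ hd, Nat.div_eq_of_lt (by omega), zero_add]
        have h3 : (n + 1) % d = n % d + 1 := by
          rw [h1, Nat.add_mul_mod_self_left, Nat.mod_eq_of_lt (by omega)]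
        simp only [g, T.right_node, T.left_node, hinj]
        rw [if_neg h, h2, h3]
        rfl
  have := PolyTime.iterate (n := fun x => T.unary (f x)) (s := fun _ => T.node T.leaf T.leaf) hg hf
    (PolyTime.const _) (by
      obtain ⟨k, hk⟩ := PolyTime.size_bound hf
      obtain ⟨m, hm⟩ : PolyB (fun n => 2 * (n + 2) ^ k + 5) :=
        PolyB.add ((PolyB.const 2).mul ⟨k, fun n => le_rfl⟩) (PolyB.const 5)
      refine ⟨m, fun x j hj => ?_⟩
      refine le_trans ?_ (hm x.size)
      have h1 := hk x
      simp only [T.len_unary] at hj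
      simp only [T.size_unary] at h1
      have h2 : j / d ≤ j := Nat.div_le_self _ _
      have h3 : j % d ≤ j := Nat.mod_le _ _
      rw [hit]
      simp only [T.size, T.size_unary]
      omega)
  refine this.left.congr fun x => ?_
  simp only [T.len_unary]
  rw [hit, T.left_node]

end Pool.Agent.RL4
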