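import Pool.Agent.RL4.Power

/-!
# The programs of the presentations

`progV R D` is the program of the theory which reports failures, with the data `D`, and
`progW W cG k` is the program of the theory which watches for successes. The exponents of the
numbers and budgets they compute contain a function `α` of the input.
-/

namespace Pool.Agent.RL4

open Pool.Agent.H19 Pool.Agent.H19.T Pool.Agent.RL Pool.Agent.RL2

/-! ### The power `m x ^ (K + a x)` -/

/-- Program for `x ↦ m x ^ (K + a x)`, from programs for `m` and `a`. -/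
def xpC (cP cm cA ca : Code) (K : ℕ) : Code :=
  Code.comp cP (Code.pair cm (Code.comp cA (Code.pair (Code.const (T.unary K)) ca)))

/-- Its code. -/
def xpE (cP cm cA ca : Code) (K : ℕ) : T :=
  T.node (T.unary 5) (T.node cP.enc (T.node (T.unary 4) (T.node cm.enc (T.node (T.unary 5)
    (T.node cA.enc (T.node (T.unary 4) (T.node (qt (T.unary K)) ca.enc)))))))

theorem xpE_eq (cP cm cA ca : Code) (K : ℕ) : xpE cP cm cA ca K = (xpC cP cm cA ca K).enc := by
  simp only [xpE, xpC, Code.enc, qt_eq]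

theorem xpE_polyTime (cP cm cA ca : Code) {f : T → ℕ} (hf : PolyNat f) :
    PolyTime (fun x => xpE cP cm cA ca (f x)) := by
  have c : ∀ a : T, PolyTime (fun _ => a) := fun a => PolyTime.const a
  exact (c _).node ((c _).node ((c _).node ((c _).node ((c _).node ((c _).node ((c _).node
    ((qt_polyTime.comp hf.unary).node (c _))))))))

/-- The constant in the bound for the exponent. -/
def xpB (A km ka kA : ℕ) : ℕ := 2 * km + (2 + 2 * ka) * (kA + 1) + A * (2 * km + 1) + 3

theorem xpC_cost {cP cm cA ca : Code} {A km ka kA : ℕ} {m a : T → ℕ}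
    (hP : ∀ (s E n e : ℕ), 3 ≤ s → 2 * n + 1 ≤ s ^ E →
      Cost cP (T.node (T.unary n) (T.unary e)) (T.unary (n ^ e)) s (A * ((E + 1) * (e + 3))))
    (hm : ∀ x : T, ∃ t : ℕ, Eval cm x (T.unary (m x)) t ∧ t ≤ (x.size + 2) ^ km)
    (hA : ∀ x : T, ∃ t : ℕ, Eval cA x (app x.left x.right) t ∧ t ≤ (x.size + 2) ^ kA)
    (ha : ∀ x : T, ∃ t : ℕ, Eval ca x (T.unary (a x)) t ∧ t ≤ (x.size + 2) ^ ka)
    (K : ℕ) (x : T) :
    Cost (xpC cP cm cA ca K) x (T.unary (m x ^ (K + a x))) (x.size + 2)
      (xpB A km ka kA * (K + a x + 3)) := by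
  obtain ⟨s, hs⟩ : ∃ s, s = x.size + 2 := ⟨_, rfl⟩
  have hs3 : 3 ≤ s := by have := T.size_pos x; omega
  rw [← hs]
  have hx1 : x.size ≤ s ^ 1 := by rw [pow_one]; omega
  have c1 : Cost cm x (T.unary (m x)) s ((1 + 1) * km) :=
    Cost.poly (f := fun x => T.unary (m x)) hm hs3 hx1
  have z1 : 2 * m x + 1 ≤ s ^ ((1 + 1) * km) := by
    have := c1.size; rwa [T.size_unary] at this
  have c2 : Cost ca x (T.unary (a x)) s ((1 + 1) * ka) :=
    Cost.poly (f := fun x => T.unary (a x)) ha hs3 hx1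
  have c3 : Cost (Code.const (T.unary K)) x (T.unary K) s (2 * K + 1) := by
    have := Cost.const (x := x) (a := T.unary K) hs3
    rwa [T.size_unary] at this
  have c4 := Cost.pair hs3 c3 c2
  have c5 : Cost cA (T.node (T.unary K) (T.unary (a x))) (T.unary (K + a x)) s
      ((2 * K + 1 + (1 + 1) * ka + 1 + 1) * kA) := by
    have := Cost.poly (f := fun x => app x.left x.right) hA hs3 c4.size
    simpa only [T.left_node, T.right_node, app_unary] using this
  have c6 := Cost.pair hs3 c1 (Cost.comp hs3 c4 c5)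
  have c7 := Cost.comp hs3 c6 (hP s ((1 + 1) * km) (m x) (K + a x) hs3 z1)
  refine c7.mono hs3 ?_
  obtain ⟨Y, hY⟩ : ∃ Y, Y = K + a x + 3 := ⟨_, rfl⟩
  rw [← hY]
  have h1 : 2 * K + 1 + (1 + 1) * ka + 1 + 1 ≤ (2 + 2 * ka) * Y := by
    have : (2 + 2 * ka) * Y = 2 * Y + 2 * ka * Y := by ring
    have h : 2 * ka ≤ 2 * ka * Y := Nat.le_mul_of_pos_right _ (by omega)
    omega
  have h2 : (2 * K + 1 + (1 + 1) * ka + 1 + 1) * kA ≤ (2 + 2 * ka) * Y * kA :=
    Nat.mul_le_mul_right _ h1
  have h3 : 2 * km ≤ 2 * km * Y := Nat.le_mul_of_pos_right _ (by omega)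
  have h4 : xpB A km ka kA * Y = 2 * km * Y + (2 + 2 * ka) * Y * kA + (2 + 2 * ka) * Y +
      A * ((2 * km + 1) * Y) + 3 * Y := by
    rw [xpB]; ring
  have h5 : A * (((1 + 1) * km + 1) * Y) = A * ((2 * km + 1) * Y) := by ring
  rw [h4, h5]
  omega

/-! ### The theory which reports failures -/

/-- The components of the program which reports failures. -/
structure Rep where
  /-- the decider -/
  cG : Code
  /-- multiplication -/
  cM : Code
  /-- powers -/
  cP : Code
  /-- the number -/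
  cm : Code
  /-- addition -/
  cA : Code
  /-- the variable part of the exponent -/
  ca : Code
  /-- the bound for the size -/
  cL : Code
  /-- the constant of the clock -/
  β : ℕ

/-- The program with data `D`. -/
def progV (R : Rep) (D : T) : Code :=
  Code.comp R.cG (Code.pair (Code.const D) (Code.pair Code.id
    (Code.comp (Code.pair Code.id (Code.comp (powC R.cM D.left.left.right.len) R.cL))
      (xpC R.cP R.cm R.cA R.ca D.left.right.left.len))))

/-- Its code. -/
def progVE (R : Rep) (D : T) : T :=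
  T.node (T.unary 5) (T.node R.cG.enc (T.node (T.unary 4) (T.node (qt D) (T.node (T.unary 4)
    (T.node Code.id.enc (T.node (T.unary 5) (T.node (T.node (T.unary 4) (T.node Code.id.enc
      (T.node (T.unary 5) (T.node (powE R.cM.enc D.left.left.right.len) R.cL.enc))))
      (xpE R.cP R.cm R.cA R.ca D.left.right.left.len))))))))

theorem progVE_eq (R : Rep) (D : T) : progVE R D = (progV R D).enc := by
  simp only [progVE, progV, Code.enc, qt_eq, powE_eq, xpE_eq]

theorem progVE_polyTime (R : Rep) : PolyTime (progVE R) := by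
  have i := PolyTime.id
  have c : ∀ a : T, PolyTime (fun _ => a) := fun a => PolyTime.const a
  exact (c _).node ((c _).node ((c _).node (qt_polyTime.node ((c _).node
    ((c _).node ((c _).node (((c _).node ((c _).node
      ((c _).node ((powE_polyTime R.cM.enc (PolyNat.len i.left.left.right)).node
        (c _))))).node (xpE_polyTime _ _ _ _ (PolyNat.len i.left.right.left)))))))))

/-- The exponent of the clock, for the value `a` of the function `α`. -/
def kapV (β : ℕ) (D : T) (a : ℕ) : ℕ :=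
  β * ((D.left.right.left.len + a + 3) * (D.left.left.right.len + 3) + D.size + 2 * a)

theorem kapV_mono (β : ℕ) (D : T) {a b : ℕ} (h : a ≤ b) : kapV β D a ≤ kapV β D b := by
  unfold kapV
  gcongr

theorem kapV_polyNat (β : ℕ) {D : T → T} {a : T → ℕ} (hD : PolyTime D) (ha : PolyNat a) :
    PolyNat (fun x => kapV β (D x) (a x)) := by
  exact (PolyNat.const β).mul ((((((PolyNat.len hD.left.right.left).add ha).add
    (PolyNat.const 3)).mul ((PolyNat.len hD.left.left.right).add (PolyNat.const 3))).add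
      (PolyNat.size hD)).add ((PolyNat.const 2).mul ha))

/-- The number and the budget, for the data `D` and the input `x`. -/
def WWV (α : ℕ → ℕ) (D x : T) : T :=
  T.node (T.unary (mOf (unfalsum x) ^ (D.left.right.left.len + α (unfalsum x).left.len)))
    (T.unary ((2 * mOf (unfalsum x) ^ (D.left.right.left.len + α (unfalsum x).left.len) + 3) ^
      D.left.left.right.len))

/-- The bound for the exponents. -/
theorem exponent_boundV (B kM kL dG : ℕ) : ∃ β : ℕ, ∀ K j d : ℕ,
    ∀ e3 e4 e5 e6 e7 : ℕ, e3 = B * (K + 3) → e4 = (e3 + 1) * kL →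
      e5 = (e4 + 4) * (kM + 1) * (j + 3) → e6 = e3 + (e3 + (e4 + e5 + 1) + 1) + 1 →
      e7 = d + (1 + e6 + 1) + 1 →
      e7 + (e7 + 1) * dG + 1 ≤ β * ((K + 3) * (j + 3) + d) := by
  refine ⟨(2 * B + (B + 1) * kL + ((B + 1) * kL + 4) * (kM + 1) + 10) * (dG + 1), ?_⟩
  intro K j d e3 e4 e5 e6 e7 h3 h4 h5 h6 h7
  obtain ⟨X, hX⟩ : ∃ X, X = (K + 3) * (j + 3) + d := ⟨_, rfl⟩
  rw [← hX]
  have hXj : (j + 3) ≤ X := by rw [hX]; nlinarith [Nat.zero_le (K * j)]
  have hX1 : 1 ≤ X := by omega
  have g3 : e3 * (j + 3) ≤ B * X := by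
    rw [h3, hX]
    have : B * (K + 3) * (j + 3) = B * ((K + 3) * (j + 3)) := by ring
    rw [this]
    exact Nat.mul_le_mul_left _ (by omega)
  have g3' : e3 ≤ B * X := le_trans (Nat.le_mul_of_pos_right _ (by omega)) g3
  have g4 : e4 * (j + 3) ≤ (B + 1) * kL * X := by
    rw [h4]
    calc (e3 + 1) * kL * (j + 3) = kL * (e3 * (j + 3) + (j + 3)) := by ring
      _ ≤ kL * (B * X + X) := Nat.mul_le_mul_left _ (by omega)
      _ = (B + 1) * kL * X := by ring
  have g4' : e4 ≤ (B + 1) * kL * X := le_trans (Nat.le_mul_of_pos_right _ (by omega)) g4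
  have g5 : e5 ≤ ((B + 1) * kL + 4) * (kM + 1) * X := by
    rw [h5]
    calc (e4 + 4) * (kM + 1) * (j + 3) = (kM + 1) * (e4 * (j + 3) + 4 * (j + 3)) := by ring
      _ ≤ (kM + 1) * ((B + 1) * kL * X + 4 * X) := Nat.mul_le_mul_left _ (by omega)
      _ = ((B + 1) * kL + 4) * (kM + 1) * X := by ring
  have g7 : e7 + 1 ≤ (2 * B + (B + 1) * kL + ((B + 1) * kL + 4) * (kM + 1) + 9) * X := by
    have hd : d ≤ X := by rw [hX]; omega
    have : (2 * B + (B + 1) * kL + ((B + 1) * kL + 4) * (kM + 1) + 9) * X =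
      B * X + B * X + (B + 1) * kL * X + ((B + 1) * kL + 4) * (kM + 1) * X + 9 * X := by ring
    rw [this]
    omega
  obtain ⟨b, hb⟩ : ∃ b, b = 2 * B + (B + 1) * kL + ((B + 1) * kL + 4) * (kM + 1) := ⟨_, rfl⟩
  rw [← hb] at g7 ⊢
  calc e7 + (e7 + 1) * dG + 1 = (e7 + 1) * (dG + 1) := by ring
    _ ≤ ((b + 9) * X) * (dG + 1) := Nat.mul_le_mul_right _ g7
    _ ≤ ((b + 10) * X) * (dG + 1) := by gcongr; omega
    _ = (b + 10) * (dG + 1) * X := by ring

theorem progV_cost {S : Set Fm} {μ : Fm} {fP f₀ : T → T} {α : ℕ → ℕ} (hS : DecTh S)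
    (hfP : PolyTime fP) (hf₀ : PolyTime f₀) (hα : Monotone α)
    (hαp : PolyTime (fun x : T => T.unary (α x.len))) : ∃ R : Rep, ∀ D x : T,
    ∃ t : ℕ, Eval (progV R D) x (GG S μ fP f₀ (T.node D (T.node x (WWV α D x)))) t ∧
      t ≤ (x.size + 2) ^ (kapV R.β D (α x.size)) := by
  have i := PolyTime.id
  have hu : PolyTime (fun x => unfalsum x) := uu_polyTime.comp i.right.left.right.left
  obtain ⟨cG, dG, hG⟩ := GG_polyTime (μ := μ) hS hfP hf₀
  obtain ⟨cM, kM, hM⟩ := mulU_polyTime₂
  obtain ⟨cP, A, hP⟩ := powV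
  obtain ⟨cm, km, hm⟩ : PolyTime (fun x => T.unary (mOf (unfalsum x))) := mOf_polyNat hu
  obtain ⟨cA, kA, hA⟩ : PolyTime (fun x : T => app x.left x.right) := app_polyTime₂
  obtain ⟨ca, ka, ha⟩ : PolyTime (fun x : T => T.unary (α (unfalsum x).left.len)) :=
    hαp.comp hu.left
  obtain ⟨cL, kL, hL⟩ : PolyTime (fun y : T => T.unary (2 * y.len + 3)) :=
    ((PolyNat.const 2).mul (PolyNat.len i)).add (PolyNat.const 3)
  obtain ⟨β, hβ⟩ := exponent_boundV (xpB A km ka kA) kM kL dG
  refine ⟨⟨cG, cM, cP, cm, cA, ca, cL, β⟩, fun D x => ?_⟩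
  have cX := xpC_cost hP hm hA ha D.left.right.left.len x
  obtain ⟨s, hs⟩ : ∃ s, s = x.size + 2 := ⟨_, rfl⟩
  have hs3 : 3 ≤ s := by have := T.size_pos x; omega
  rw [← hs] at cX ⊢
  obtain ⟨K, hK⟩ : ∃ K, K = D.left.right.left.len := ⟨_, rfl⟩
  obtain ⟨j, hj⟩ : ∃ j, j = D.left.left.right.len := ⟨_, rfl⟩
  obtain ⟨b, hb⟩ : ∃ b, b = α (unfalsum x).left.len := ⟨_, rfl⟩
  obtain ⟨p, hp⟩ : ∃ p, p = mOf (unfalsum x) ^ (K + b) := ⟨_, rfl⟩
  rw [← hK, ← hb, ← hp] at cX
  obtain ⟨e3, he3⟩ : ∃ e, e = xpB A km ka kA * (K + b + 3) := ⟨_, rfl⟩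
  obtain ⟨e4, he4⟩ : ∃ e, e = (e3 + 1) * kL := ⟨_, rfl⟩
  obtain ⟨e5, he5⟩ : ∃ e, e = (e4 + 4) * (kM + 1) * (j + 3) := ⟨_, rfl⟩
  obtain ⟨e6, he6⟩ : ∃ e, e = e3 + (e3 + (e4 + e5 + 1) + 1) + 1 := ⟨_, rfl⟩
  obtain ⟨e7, he7⟩ : ∃ e, e = D.size + (1 + e6 + 1) + 1 := ⟨_, rfl⟩
  rw [← he3] at cX
  have c4 : Cost cL (T.unary p) (T.unary (2 * p + 3)) s e4 := by
    have := Cost.poly hL hs3 cX.size
    rw [T.len_unary] at this
    rw [he4]; exact this
  have z4 : 2 * (2 * p + 3) + 1 ≤ s ^ e4 := by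
    have := c4.size; rwa [T.size_unary] at this
  have c5 : Cost (powC cM j) (T.unary (2 * p + 3)) (T.unary ((2 * p + 3) ^ j)) s e5 := by
    rw [he5]; exact powC_cost hM hs3 z4 j
  have c6 : Cost (Code.comp (Code.pair Code.id (Code.comp (powC cM j) cL))
      (xpC cP cm cA ca K)) x (WWV α D x) s e6 := by
    rw [he6]
    refine Cost.comp hs3 cX ?_
    unfold WWV
    rw [← hK, ← hj, ← hb, ← hp]
    exact Cost.pair hs3 (Cost.id cX.size) (Cost.comp hs3 c4 c5)
  have c7 : Cost (Code.pair (Code.const D) (Code.pair Code.id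
      (Code.comp (Code.pair Code.id (Code.comp (powC cM j) cL)) (xpC cP cm cA ca K)))) x
      (T.node D (T.node x (WWV α D x))) s e7 := by
    rw [he7]
    exact Cost.pair hs3 (Cost.const hs3) (Cost.pair hs3 (Cost.id (by rw [pow_one]; omega)) c6)
  have c8 := Cost.comp hs3 c7 (Cost.poly hG hs3 c7.size)
  have hb1 := hβ (K + b) j D.size e3 e4 e5 e6 e7 he3 he4 he5 he6 he7
  have hbm : b ≤ α x.size := by
    rw [hb]
    refine hα ?_
    have h1 := T.len_lt_size (unfalsum x).left
    have h2 := T.size_left_le (unfalsum x)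
    have h3 : (unfalsum x).size ≤ x.size := by
      have huu : ∀ y : T, (uu y).size ≤ y.size := by
        intro y
        induction y using uu.induct with
        | case1 => simp [uu]
        | case2 t => simp [uu, T.size]
        | case3 a b iha ihb => simp only [uu, if_true, T.size] at *; omega
        | case4 t a b h => simp [uu, h, T.size]
      exact (huu _).trans ((T.size_left_le _).trans ((T.size_right_le _).trans
        ((T.size_left_le _).trans (T.size_right_le _))))
    omega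
  have hb2 : β * ((K + b + 3) * (j + 3) + D.size) ≤ kapV β D (α x.size) := by
    rw [kapV, ← hK, ← hj]
    refine Nat.mul_le_mul_left _ ?_
    have : (K + b + 3) * (j + 3) ≤ (K + α x.size + 3) * (j + 3) :=
      Nat.mul_le_mul_right _ (by omega)
    omega
  have c9 := c8.mono hs3 (hb1.trans hb2)
  rw [progV, ← hK, ← hj]
  exact c9

/-! ### The theory which watches for successes -/

/-- The components of the program which watches. -/
structure Wat where
  /-- powers -/
  cP : Code
  /-- the number -/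
  cn : Code
  /-- addition -/
  cA : Code
  /-- the variable part of the exponent -/
  ca : Code
  /-- the constant of the clock -/
  C₀ : ℕ

/-- The program for the exponent `k`. -/
def progW (W : Wat) (cG : Code) (k : ℕ) : Code :=
  Code.comp cG (Code.pair (Code.const (T.unary k)) (Code.pair Code.id
    (xpC W.cP W.cn W.cA W.ca k)))

/-- Its code, from the code of `cG`. -/
def progWE (W : Wat) (gE : T) (k : ℕ) : T :=
  T.node (T.unary 5) (T.node gE (T.node (T.unary 4) (T.node (qt (T.unary k)) (T.node (T.unary 4)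
    (T.node Code.id.enc (xpE W.cP W.cn W.cA W.ca k))))))

theorem progWE_eq (W : Wat) (cG : Code) (k : ℕ) :
    progWE W cG.enc k = (progW W cG k).enc := by
  simp only [progWE, progW, Code.enc, qt_eq, xpE_eq]

theorem progWE_polyTime (W : Wat) {g : T → T} {f : T → ℕ} (hg : PolyTime g)
    (hf : PolyNat f) : PolyTime (fun x => progWE W (g x) (f x)) := by
  have c : ∀ a : T, PolyTime (fun _ => a) := fun a => PolyTime.const a
  exact (c _).node (hg.node ((c _).node ((qt_polyTime.comp hf.unary).node ((c _).node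
    ((c _).node (xpE_polyTime _ _ _ _ hf))))))

/-- The code of the presentation for the exponent `k` and the value `a` of `α`, from the code `g`
of the inner decider. -/
def QW (W : Wat) (g : T) (k a : ℕ) : T :=
  T.node (progWE W g.left k) (T.unary (W.C₀ * (g.right.len + 1) * (k + a + 3)))

theorem QW_polyTime (W : Wat) {g : T → T} {f a : T → ℕ} (hg : PolyTime g)
    (hf : PolyNat f) (ha : PolyNat a) : PolyTime (fun x => QW W (g x) (f x) (a x)) :=
  (progWE_polyTime W hg.left hf).node (((PolyNat.const W.C₀).mul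
    ((PolyNat.len hg.right).add (PolyNat.const 1))).mul
      ((hf.add ha).add (PolyNat.const 3))).unary

/-- The components and the cost. -/
theorem progW_cost {α : ℕ → ℕ} (hα : Monotone α)
    (hαp : PolyTime (fun x : T => T.unary (α x.len))) : ∃ W : Wat, ∀ (cG : Code) (κ : ℕ)
    (F : T → T), (∀ x : T, ∃ t : ℕ, Eval cG x (F x) t ∧ t ≤ (x.size + 2) ^ κ) →
    ∀ (k : ℕ) (x : T), ∃ t : ℕ, Eval (progW W cG k) x
        (F (T.node (T.unary k) (T.node x (T.unary (nOf (unfalsum x) ^
          (k + α (unfalsum x).right.left.len)))))) t ∧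
      t ≤ (x.size + 2) ^ (W.C₀ * (κ + 1) * (k + α x.size + 3)) := by
  have i := PolyTime.id
  have hu : PolyTime (fun x => unfalsum x) := uu_polyTime.comp i.right.left.right.left
  obtain ⟨cP, A, hP⟩ := powV
  obtain ⟨cn, kn, hn⟩ : PolyTime (fun x => T.unary (nOf (unfalsum x))) :=
    ((PolyNat.const 200).mul (PolyNat.len hu.right.left)).add (PolyNat.len hu.right.right)
  obtain ⟨cA, kA, hA⟩ : PolyTime (fun x : T => app x.left x.right) := app_polyTime₂
  obtain ⟨ca, ka, ha⟩ : PolyTime (fun x : T => T.unary (α (unfalsum x).right.left.len)) :=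
    hαp.comp hu.right.left
  refine ⟨⟨cP, cn, cA, ca, xpB A kn ka kA + 10⟩, fun cG κ F hG k x => ?_⟩
  have cX := xpC_cost hP hn hA ha k x
  obtain ⟨s, hs⟩ : ∃ s, s = x.size + 2 := ⟨_, rfl⟩
  have hs3 : 3 ≤ s := by have := T.size_pos x; omega
  rw [← hs] at cX ⊢
  obtain ⟨b, hb⟩ : ∃ b, b = α (unfalsum x).right.left.len := ⟨_, rfl⟩
  rw [← hb] at cX ⊢
  obtain ⟨e3, he3⟩ : ∃ e, e = xpB A kn ka kA * (k + b + 3) := ⟨_, rfl⟩
  obtain ⟨e5, he5⟩ : ∃ e, e = (2 * k + 1) + (1 + e3 + 1) + 1 := ⟨_, rfl⟩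
  rw [← he3] at cX
  have c0 : Cost (Code.const (T.unary k)) x (T.unary k) s (2 * k + 1) := by
    have := Cost.const (x := x) (a := T.unary k) hs3
    rwa [T.size_unary] at this
  have c5 : Cost (Code.pair (Code.const (T.unary k)) (Code.pair Code.id
      (xpC cP cn cA ca k))) x (T.node (T.unary k) (T.node x (T.unary (nOf (unfalsum x) ^
        (k + b))))) s e5 := by
    rw [he5]
    exact Cost.pair hs3 c0 (Cost.pair hs3 (Cost.id (by rw [pow_one]; omega)) cX)
  have c8 := Cost.comp hs3 c5 (Cost.poly hG hs3 c5.size)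
  refine c8.mono hs3 ?_
  have hbm : b ≤ α x.size := by
    rw [hb]
    refine hα ?_
    have h1 := T.len_lt_size (unfalsum x).right.left
    have h2 := (T.size_left_le (unfalsum x).right).trans (T.size_right_le (unfalsum x))
    have h3 : (unfalsum x).size ≤ x.size := by
      have huu : ∀ y : T, (uu y).size ≤ y.size := by
        intro y
        induction y using uu.induct with
        | case1 => simp [uu]
        | case2 t => simp [uu, T.size]
        | case3 a b iha ihb => simp only [uu, if_true, T.size] at *; omega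
        | case4 t a b h => simp [uu, h, T.size]
      exact (huu _).trans ((T.size_left_le _).trans ((T.size_right_le _).trans
        ((T.size_left_le _).trans (T.size_right_le _))))
    omega
  obtain ⟨Y, hY⟩ : ∃ Y, Y = k + b + 3 := ⟨_, rfl⟩
  rw [← hY] at he3
  have g5 : e5 + 1 ≤ (xpB A kn ka kA + 10) * Y := by
    have : (xpB A kn ka kA + 10) * Y = xpB A kn ka kA * Y + 10 * Y := by ring
    rw [this, he5, he3]
    omega
  have g6 : Y ≤ k + α x.size + 3 := by omega
  calc e5 + (e5 + 1) * κ + 1 = (e5 + 1) * (κ + 1) := by ring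
    _ ≤ ((xpB A kn ka kA + 10) * Y) * (κ + 1) := Nat.mul_le_mul_right _ g5
    _ = (xpB A kn ka kA + 10) * (κ + 1) * Y := by ring
    _ ≤ _ := Nat.mul_le_mul_left _ g6

end Pool.Agent.RL4
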