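import Pool.Agent.RL4.Progs
import Pool.Agent.RL3.Main

/-!
# The decider of the theory which watches for successes
-/

namespace Pool.Agent.RL4

open Pool.Agent.H19 Pool.Agent.H19.T Pool.Agent.RL Pool.Agent.RL2

/-- The description `v` contains a proof that the theory which reports failures is right for the
number described by `v`. -/
def SuccV (S : Set Fm) (μ : Fm) (fP : T → T) (R : Rep) (α : ℕ → ℕ) (m₁ : ℕ) (v q : T) : Prop :=
  m₁ ≤ v.right.left.len ∧ v.left.right.right.len ≤ v.right.left.len ∧
    100 * v.size + m₁ ≤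
      v.right.left.len ^ (v.left.right.left.len + α (v.right.left.len / 200)) ∧
    IsProof S (decProof v.right.right)
      (rfn (decFm (fP (T.node (progVE R (T.node v.left q))
        (T.unary (kapV R.β (T.node v.left q) (α v.right.left.len)))))) μ v.right.left.len)

section
variable (S₁ S₂ : Set Fm) (μ₁ μ₂ : Fm) (fP₁ fP₂ f₁ : T → T) (R : Rep) (W : Wat) (α₁ α₂ : ℕ → ℕ)
  (m₁ Kb : ℕ)

open Classical in
/-- The inner decider; its argument is `node (node (unary k) (node x w)) g`. -/
noncomputable def EV (z : T) : T :=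
  if (falsum (unfalsum z.left.right.left)).enc = z.left.right.left ∧
    ((α₁ z.left.right.left.size ≤ Kb ∧
        SuccV S₂ μ₂ fP₂ R α₂ m₁ (unfalsum z.left.right.left) (QW W z.right z.left.left.len Kb)) ∨
      SuccF S₁ μ₁ fP₁ m₁ (unfalsum z.left.right.left) z.left.right.right
        (QW W z.right z.left.left.len (α₁ (nOf (unfalsum z.left.right.left)))))
  then T.node T.leaf T.leaf else f₁ z.left.right.left

end

theorem succV_polyDec {S : Set Fm} {μ : Fm} {fP : T → T} {R : Rep} {α : ℕ → ℕ} {m₁ : ℕ}
    (hS : DecTh S) (hfP : PolyTime fP) (hα : PolyTime (fun x : T => T.unary (α x.len)))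
    {v q : T → T} (hv : PolyTime v) (hq : PolyTime q) :
    PolyDec (fun z => SuccV S μ fP R α m₁ (v z) (q z)) := by
  have hm := PolyNat.len hv.right.left
  have ha1 : PolyNat (fun z => α ((v z).right.left.len / 200)) := by
    have := hα.comp (PolyNat.div hm 200 (by norm_num)).unary
    refine this.congr fun z => ?_
    rw [T.len_unary]
  have ha2 : PolyNat (fun z => α (v z).right.left.len) := hα.comp hv.right.left
  refine ((PolyDec.le (PolyNat.const m₁) hm).and
      ((PolyDec.le (PolyNat.len hv.left.right.right) hm).and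
      ((PolyDec.le_pow hm
        (((PolyNat.const 100).mul (PolyNat.size hv)).add (PolyNat.const m₁))
        ((PolyNat.len hv.left.right.left).add ha1)).and ?_)))
  have hD : PolyTime (fun z : T => T.node (v z).left (q z)) := hv.left.node hq
  have h := (isProof_polyDec hS).comp (hv.right.right.node
    (rfn_polyTime μ (hfP.comp (((progVE_polyTime R).comp hD).node
      (kapV_polyNat R.β hD ha2).unary)) hm))
  refine h.congr fun z => ?_
  simp only [T.left_node, T.right_node, decFm_enc]

theorem EV_polyTime {S₁ S₂ : Set Fm} {μ₁ μ₂ : Fm} {fP₁ fP₂ f₁ : T → T} {R : Rep} {W : Wat}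
    {α₁ α₂ : ℕ → ℕ} {m₁ Kb : ℕ} (hS₁ : DecTh S₁) (hS₂ : DecTh S₂)
    (hfP₁ : PolyTime fP₁) (hfP₂ : PolyTime fP₂) (hf₁ : PolyTime f₁)
    (hα₁ : PolyTime (fun x : T => T.unary (α₁ x.len)))
    (hα₂ : PolyTime (fun x : T => T.unary (α₂ x.len))) :
    PolyTime (EV S₁ S₂ μ₁ μ₂ fP₁ fP₂ f₁ R W α₁ α₂ m₁ Kb) := by
  have i := PolyTime.id
  have hx : PolyTime (fun z : T => z.left.right.left) := i.left.right.left
  have hv : PolyTime (fun z : T => unfalsum z.left.right.left) :=
    uu_polyTime.comp hx.right.left.right.left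
  have hn : PolyNat (fun z : T => nOf (unfalsum z.left.right.left)) :=
    ((PolyNat.const 200).mul (PolyNat.len hv.right.left)).add (PolyNat.len hv.right.right)
  have ha1 : PolyNat (fun z : T => α₁ z.left.right.left.size) := by
    refine (hα₁.comp (PolyNat.size hx).unary).congr fun z => ?_
    rw [T.len_unary]
  have ha2 : PolyNat (fun z : T => α₁ (nOf (unfalsum z.left.right.left))) := by
    refine (hα₁.comp hn.unary).congr fun z => ?_
    rw [T.len_unary]
  have hq1 : PolyTime (fun z : T => QW W z.right z.left.left.len Kb) :=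
    QW_polyTime W i.right (PolyNat.len i.left.left) (PolyNat.const Kb)
  have hq2 : PolyTime (fun z : T => QW W z.right z.left.left.len
      (α₁ (nOf (unfalsum z.left.right.left)))) :=
    QW_polyTime W i.right (PolyNat.len i.left.left) ha2
  have hdec := (PolyDec.eq (falsum_polyTime.comp hv) hx).and
    (((PolyDec.le ha1 (PolyNat.const Kb)).and (succV_polyDec (μ := μ₂) (R := R) (m₁ := m₁)
      hS₂ hfP₂ hα₂ hv hq1)).or (succF_polyDec (μ := μ₁) (m₁ := m₁) hS₁ hfP₁ hv
        i.left.right.right hq2))
  refine (PolyTime.ifP hdec (PolyTime.const (T.node T.leaf T.leaf)) (hf₁.comp hx)).congr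
    fun z => ?_
  unfold EV
  split_ifs <;> rfl

/-- The size of the false axioms. -/
theorem falsum_size (v : T) : (falsum v).enc.size ≤ 26 * v.size + 100 := by
  have h := tt_size v
  simp only [falsum, Fm.enc, T.size, T.size_unary]
  omega

end Pool.Agent.RL4
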